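import Mathlib

set_option autoImplicit false

namespace Pool.Agent.H.MP_cd85a3_co

open Finset

/-- cops (a multiset of vertices) to move, robber at the given vertex: the cops can force capture -/
inductive Win {V : Type} [DecidableEq V] (G : SimpleGraph V) : Multiset V → V → Prop
  | capture (C C' : Multiset V) (r : V) : Multiset.Rel (fun a b => a = b ∨ G.Adj a b) C C' →
      r ∈ C' → Win G C r
  | step (C C' : Multiset V) (r : V) : Multiset.Rel (fun a b => a = b ∨ G.Adj a b) C C' →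
      (∀ r', (r = r' ∨ G.Adj r r') → C'.count r' = 0 → Win G C' r') →
      (∀ r', G.Adj r r' → C'.count r' = 1 → Win G (C'.erase r') r') → Win G C r

def CopsWin {V : Type} [DecidableEq V] (G : SimpleGraph V) (k : ℕ) : Prop :=
  ∃ C : Multiset V, C.card = k ∧ ∀ r, Win G C r

def grid {n : ℕ} (m : Fin n → ℕ) : SimpleGraph ((i : Fin n) → Fin (m i)) where
  Adj x y := ∃ i, ((x i).val + 1 = (y i).val ∨ (y i).val + 1 = (x i).val) ∧ ∀ j, j ≠ i → x j = y j
  symm := ⟨fun _ _ ⟨i, h1, h2⟩ => ⟨i, h1.symm, fun j hj => (h2 j hj).symm⟩⟩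
  loopless := ⟨fun _ ⟨_, h1, _⟩ => by omega⟩

theorem win_adj {V : Type} [DecidableEq V] (G : SimpleGraph V) (C : Multiset V) (x r : V)
    (hx : x ∈ C) (h : x = r ∨ G.Adj x r) : Win G C r := by
  refine .capture C (r ::ₘ C.erase x) r ?_ (Multiset.mem_cons_self _ _)
  conv_lhs => rw [← Multiset.cons_erase hx]
  exact .cons h (Multiset.rel_refl_of_refl_on fun _ _ => Or.inl rfl)

variable {n : ℕ} {m : Fin n → ℕ}

abbrev P (m : Fin n → ℕ) := (i : Fin n) → Fin (m i)

def d (a b : ℕ) : ℕ := (a - b) + (b - a)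

def D (x y : P m) : ℕ := ∑ i, d (x i).val (y i).val

theorem D_comm (x y : P m) : D x y = D y x :=
  sum_congr rfl fun i _ => by unfold d; omega

theorem D_zero (x y : P m) : D x y = 0 ↔ x = y := by
  constructor
  · intro h
    funext i
    have := (sum_eq_zero_iff.1 h) i (mem_univ _)
    unfold d at this
    exact Fin.ext (by omega)
  · rintro rfl
    simp [D, d]

theorem D_off (x r r' : P m) (l : Fin n) (h : ∀ j, j ≠ l → r j = r' j) :
    D x r' + d (x l).val (r l).val = D x r + d (x l).val (r' l).val := by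
  unfold D
  rw [← add_sum_erase univ _ (mem_univ l), ← add_sum_erase univ (fun i => d (x i).val (r i).val)
    (mem_univ l), sum_congr rfl (fun j hj => by rw [← h j (mem_erase.1 hj).1])]
  omega

theorem adj_iff (x y : P m) : (grid m).Adj x y ↔ D x y = 1 := by
  constructor
  · rintro ⟨i, h1, h2⟩
    have := D_off x x y i h2
    rw [(D_zero x x).2 rfl] at this
    unfold d at this
    omega
  · intro h
    obtain ⟨i, -, hi⟩ := exists_ne_zero_of_sum_ne_zero (show D x y ≠ 0 by omega)
    unfold D at h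
    rw [← add_sum_erase univ _ (mem_univ i)] at h
    refine ⟨i, by unfold d at h hi; omega, fun j hj => ?_⟩
    have h0 : ∑ j ∈ univ.erase i, d (x j).val (y j).val = 0 := by omega
    have := (sum_eq_zero_iff.1 h0) j (mem_erase.2 ⟨hj, mem_univ _⟩)
    unfold d at this
    exact Fin.ext (by omega)

theorem median (x y z : P m) : ∃ w : P m, D x y = D x w + D y w ∧ D x z = D x w + D z w ∧
    D y z = D y w + D z w := by
  refine ⟨fun i => max (min (x i) (y i)) (min (max (x i) (y i)) (z i)), ?_, ?_, ?_⟩ <;>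
  · unfold D
    rw [← sum_add_distrib]
    refine sum_congr rfl fun i _ => ?_
    simp only [Fin.coe_max, Fin.coe_min, d]
    omega

theorem toward (x r : P m) (i : Fin n) (h : (x i).val ≠ (r i).val) :
    ∃ x' : P m, D x x' = 1 ∧ D x' r + 1 = D x r ∧ (∀ j, j ≠ i → x j = x' j) ∧
      d (x' i).val (r i).val + 1 = d (x i).val (r i).val ∧ d (x i).val (x' i).val = 1 := by
  have h1 := (x i).2
  have h2 := (r i).2
  let a : Fin (m i) := ⟨if (x i).val < (r i).val then (x i).val + 1 else (x i).val - 1, by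
    split_ifs <;> omega⟩
  have ha : a.val = if (x i).val < (r i).val then (x i).val + 1 else (x i).val - 1 := rfl
  have h3 : ∀ j, j ≠ i → x j = Function.update x i a j := fun j hj =>
    (Function.update_of_ne hj _ _).symm
  have h4 := D_off x x _ i h3
  have h5 := D_off r x _ i h3
  rw [(D_zero x x).2 rfl] at h4
  rw [D_comm r x, D_comm r] at h5
  refine ⟨Function.update x i a, ?_, ?_, h3, ?_, ?_⟩ <;>
  · simp only [Function.update_self, d] at h4 h5 ⊢
    split_ifs at ha <;> omega

theorem reduce (x r : P m) (j : ℕ) (h : 2 ≤ D x r) : ∃ x' : P m, D x x' ≤ 1 ∧ 2 ≤ D x' r ∧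
    (3 ≤ D x r → D x' r + 1 = D x r) ∧ (D x r = 2 → x' = x) ∧ ∀ i : Fin n, i.val / 2 = j →
      (((x i).val < (r i).val ↔ (x' i).val < (r i).val) ∧
        ((r i).val < (x i).val ↔ (r i).val < (x' i).val)) := by
  by_cases h3 : 3 ≤ D x r
  swap
  · exact ⟨x, by rw [(D_zero x x).2 rfl]; omega, h, fun h => absurd h h3, fun _ => rfl,
      fun _ _ => ⟨Iff.rfl, Iff.rfl⟩⟩
  have : ∃ i : Fin n, 2 ≤ d (x i).val (r i).val ∨ (1 ≤ d (x i).val (r i).val ∧ i.val / 2 ≠ j) := by
    by_contra hc
    push Not at hc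
    have a : D x r ≤ ∑ i : Fin n, if i.val / 2 = j then 1 else 0 :=
      sum_le_sum fun i _ => by
        have := hc i
        split_ifs <;> omega
    rw [← card_filter] at a
    have b : (univ.filter (fun i : Fin n => i.val / 2 = j)).card ≤ ({2 * j, 2 * j + 1} : Finset ℕ).card :=
      card_le_card_of_injOn Fin.val (fun i hi => by
        have := (mem_filter.1 hi).2
        simp only [coe_insert, coe_singleton, Set.mem_insert_iff, Set.mem_singleton_iff]
        omega) Fin.val_injective.injOn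
    have c := card_le_two (a := 2 * j) (b := 2 * j + 1)
    omega
  obtain ⟨i, hi⟩ := this
  obtain ⟨x', a, b, c, e, f⟩ := toward x r i (by unfold d at hi; omega)
  refine ⟨x', a.le, by omega, fun _ => b, by omega, fun l hl => ?_⟩
  by_cases hli : l = i
  · subst hli
    unfold d at hi e f
    omega
  · rw [← c l hli]
    exact ⟨Iff.rfl, Iff.rfl⟩

def mu (a r M : ℕ) : ℕ := if r < a then r else if a < r then M - 1 - r else M

def cops {t : ℕ} (g : Fin (t + 1) → P m) (p : P m) : Multiset (P m) :=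
  p ::ₘ (univ : Finset (Fin (t + 1))).val.map g

theorem cops_rel {t : ℕ} (g g' : Fin (t + 1) → P m) (p p' : P m) (h : ∀ j, D (g j) (g' j) ≤ 1)
    (hp : D p p' ≤ 1) :
    Multiset.Rel (fun a b => a = b ∨ (grid m).Adj a b) (cops g p) (cops g' p') := by
  have aux : ∀ a b : P m, D a b ≤ 1 → a = b ∨ (grid m).Adj a b := by
    intro a b h
    rw [← D_zero, adj_iff]
    omega
  refine .cons (aux _ _ hp) ?_
  rw [Multiset.rel_map]
  exact Multiset.rel_refl_of_refl_on fun j _ => aux _ _ (h j)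

theorem mem_cops {t : ℕ} (g : Fin (t + 1) → P m) (p x : P m) :
    x ∈ cops g p ↔ x = p ∨ ∃ j, g j = x := by
  unfold cops
  rw [Multiset.mem_cons, Multiset.mem_map]
  exact or_congr Iff.rfl ⟨fun ⟨j, _, e⟩ => ⟨j, e⟩, fun ⟨j, e⟩ => ⟨j, mem_univ j, e⟩⟩

theorem strat {t : ℕ} (ht : n ≤ 2 * (t + 1)) (S : ℕ) : ∀ (T : ℕ) (g : Fin (t + 1) → P m) (p r : P m),
    ∑ j, D (g j) r = S →
    2 * ∑ i : Fin n, mu (g ⟨i.val / 2, by omega⟩ i).val (r i).val (m i)
      + (if p = g 0 then 1 else 0) = T →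
    (∀ j, 2 ≤ D (g j) r) → (p = g 0 ∨ (D p r = 1 ∧ D p (g 0) = 1)) →
    ∀ C, Multiset.Rel (fun a b => a = b ∨ (grid m).Adj a b) C (cops g p) → Win (grid m) C r := by
  induction S using Nat.strong_induction_on with
  | _ S ih1 =>
  intro T
  induction T using Nat.strong_induction_on with
  | _ T ih2 =>
  intro g p r hS hT hg hp C hC
  refine .step C _ r hC ?_ ?_
  swap
  · intro r' ha hc
    have hm : r' ∈ cops g p := Multiset.count_pos.1 (by omega)
    rw [adj_iff] at ha
    have hng : ∀ j, g j ≠ r' := fun j e => by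
      have := hg j
      rw [e, D_comm] at this
      omega
    have e : r' = p := ((mem_cops _ _ _).1 hm).resolve_right (fun ⟨j, e⟩ => hng j e)
    subst e
    have h2 := (hp.resolve_left (fun e => hng 0 e.symm)).2
    refine win_adj _ _ (g 0) _ ?_ (Or.inr ((adj_iff _ _).2 (by rwa [D_comm])))
    simp [cops]
  intro r' ha _
  by_cases hx : ∃ x ∈ cops g p, D x r' ≤ 1
  · obtain ⟨x, h1, h2⟩ := hx
    refine win_adj _ _ x _ h1 ?_
    rw [← D_zero, adj_iff]
    omega
  push Not at hx
  have hg' : ∀ j, 2 ≤ D (g j) r' := fun j => hx _ ((mem_cops _ _ _).2 (Or.inr ⟨j, rfl⟩))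
  have hp' : 2 ≤ D p r' := hx _ ((mem_cops _ _ _).2 (Or.inl rfl))
  have hrr : D r r' ≤ 1 := by
    rw [← D_zero, adj_iff] at ha
    omega
  choose g' k1 k2 k3 k4 k5 using fun j : Fin (t + 1) => reduce (g j) r' j.val (hg' j)
  have hle : ∀ j, D (g' j) r' ≤ D (g j) r := by
    intro j
    obtain ⟨w, a, b, c⟩ := median (g j) r r'
    have := k3 j
    have := hg j
    have := hg' j
    by_cases e : D (g j) r' = 2
    · rw [k4 j e]; omega
    · omega
  have hle' : ∀ j, D (g' j) r' ≤ D (g j) r' := by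
    intro j
    have := k3 j
    have := hg' j
    by_cases e : D (g j) r' = 2
    · rw [k4 j e]
    · omega
  have hpush : ∃ p' : P m, D p p' ≤ 1 ∧ (p' = g' 0 ∨ (D p' r' = 1 ∧ D p' (g' 0) = 1)) := by
    rcases hp with rfl | ⟨h1, h2⟩
    · exact ⟨g' 0, k1 0, Or.inl rfl⟩
    · by_cases e : p = g' 0
      · exact ⟨p, by rw [(D_zero p p).2 rfl]; omega, Or.inl e⟩
      obtain ⟨w, a, b, c⟩ := median p r' (g' 0)
      obtain ⟨w1, a1, b1, c1⟩ := median p r r'
      obtain ⟨w2, a2, b2, c2⟩ := median p (g 0) r'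
      obtain ⟨w3, a3, b3, c3⟩ := median p (g 0) (g' 0)
      have := (D_zero p (g' 0)).not.2 e
      have := k1 0
      have := k2 0
      have := k3 0
      have := hg' 0
      refine ⟨w, by rw [D_comm r' (g' 0)] at c; omega, Or.inr ?_⟩
      rw [D_comm w, D_comm w]
      rw [D_comm r' (g' 0)] at c
      omega
  by_cases hlt : ∑ j, D (g' j) r' < S
  · obtain ⟨p', q1, q2⟩ := hpush
    exact ih1 _ hlt _ g' p' r' rfl rfl k2 q2 _ (cops_rel _ _ _ _ k1 q1)
  have heq : ∀ j, D (g' j) r' = D (g j) r := by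
    by_contra hc
    push Not at hc
    obtain ⟨j, hj⟩ := hc
    exact hlt (hS ▸ sum_lt_sum (fun j _ => hle j) ⟨j, mem_univ _, lt_of_le_of_ne (hle j) hj⟩)
  have hS' : ∑ j, D (g' j) r' = S := hS ▸ sum_congr rfl fun j _ => heq j
  rcases ha with rfl | ⟨l, h1, h2⟩
  · have e : p = g 0 := hp.resolve_right (fun h => by omega)
    subst e
    obtain ⟨i, -, hi⟩ := exists_ne_zero_of_sum_ne_zero (show D (g 0) r ≠ 0 by omega)
    obtain ⟨p', a, b, -⟩ := toward (g 0) r i (by unfold d at hi; omega)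
    have h2 : D (g 0) r = 2 := by
      have := k3 0
      have := heq 0
      omega
    have hne : p' ≠ g 0 := fun e => by
      rw [e, (D_zero _ _).2 rfl] at a
      omega
    refine ih2 _ ?_ g p' r hS rfl hg (Or.inr ⟨by omega, by rwa [D_comm]⟩) _
      (cops_rel _ _ _ _ (fun j => by rw [(D_zero _ _).2 rfl]; omega) a.le)
    rw [← hT, if_pos rfl, if_neg hne]
    omega
  · obtain ⟨p', q1, q2⟩ := hpush
    refine ih2 _ ?_ g' p' r' hS' rfl k2 q2 _ (cops_rel _ _ _ _ k1 q1)
    have : ∑ i : Fin n, mu (g' ⟨i.val / 2, by omega⟩ i).val (r' i).val (m i)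
        < ∑ i : Fin n, mu (g ⟨i.val / 2, by omega⟩ i).val (r i).val (m i) := by
      have hl : mu (g' ⟨l.val / 2, by omega⟩ l).val (r' l).val (m l)
          < mu (g ⟨l.val / 2, by omega⟩ l).val (r l).val (m l) := by
        have a := k5 ⟨l.val / 2, by omega⟩ l rfl
        have b := D_off (g ⟨l.val / 2, by omega⟩) r r' l h2
        have c := heq ⟨l.val / 2, by omega⟩
        have e := hle' ⟨l.val / 2, by omega⟩
        have := (r l).2
        have := (r' l).2
        unfold d at b
        unfold mu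
        split_ifs <;> omega
      refine sum_lt_sum (fun i _ => ?_) ⟨l, mem_univ _, hl⟩
      by_cases e : i = l
      · rw [e]; exact hl.le
      · have a := k5 ⟨i.val / 2, by omega⟩ i rfl
        rw [h2 i e]
        unfold mu
        split_ifs <;> omega
    rw [← hT]
    split_ifs <;> omega

theorem upper (hm : ∀ i, 2 ≤ m i) (hn : 1 ≤ n) : CopsWin (grid m) ((n + 1) / 2 + 1) := by
  obtain ⟨t, ht⟩ : ∃ t, (n + 1) / 2 = t + 1 := ⟨(n + 1) / 2 - 1, by omega⟩
  let o : P m := fun i => ⟨0, by have := hm i; omega⟩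
  refine ⟨cops (t := t) (fun _ => o) o, by simp [cops, ht], fun r => ?_⟩
  by_cases h : D o r ≤ 1
  · refine win_adj _ _ o _ ((mem_cops _ _ _).2 (Or.inl rfl)) ?_
    rw [← D_zero, adj_iff]
    omega
  · exact strat (t := t) (by omega) _ _ (fun _ => o) o r rfl rfl (fun _ => by omega) (Or.inl rfl) _
      (Multiset.rel_refl_of_refl_on fun _ _ => Or.inl rfl)

end Pool.Agent.H.MP_cd85a3_co
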