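import Mathlib
import Pool.Agent.H.MP_cd85a3_co.A

set_option autoImplicit false

namespace Pool.Agent.H.MP_cd85a3_co

open Finset

variable {n : ℕ} {m : Fin n → ℕ}

theorem esc (hm : ∀ i, 2 ≤ m i) (r : P m) (C : Multiset (P m)) (hC : 2 * C.card < n)
    (hr : r ∉ C) : ∃ v : P m, D r v = 1 ∧ ∀ x ∈ C, 2 ≤ D x v := by
  have hcov : (C.toFinset.biUnion (fun x => univ.filter
      (fun i : Fin n => D x r ≤ 2 ∧ (x i).val ≠ (r i).val))).card ≤ C.toFinset.card * 2 := by
    refine card_biUnion_le_card_mul _ _ _ fun x _ => ?_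
    by_cases h : D x r ≤ 2
    · refine le_trans ?_ h
      rw [card_filter]
      refine sum_le_sum fun i _ => ?_
      unfold d
      split_ifs <;> omega
    · simp [h]
  have h1 := Multiset.toFinset_card_le C
  obtain ⟨i, -, hi⟩ := exists_mem_notMem_of_card_lt_card (s := C.toFinset.biUnion (fun x =>
    univ.filter (fun i : Fin n => D x r ≤ 2 ∧ (x i).val ≠ (r i).val))) (t := univ)
    (by rw [card_univ, Fintype.card_fin]; omega)
  have h2 := hm i
  have h3 := (r i).2
  let a : Fin (m i) := ⟨if (r i).val = 0 then 1 else (r i).val - 1, by split_ifs <;> omega⟩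
  have ha : a.val = if (r i).val = 0 then 1 else (r i).val - 1 := rfl
  have h4 : ∀ j, j ≠ i → r j = Function.update r i a j := fun j hj =>
    (Function.update_of_ne hj _ _).symm
  refine ⟨Function.update r i a, ?_, fun x hx => ?_⟩
  · have := D_off r r _ i h4
    rw [(D_zero r r).2 rfl] at this
    simp only [Function.update_self, d] at this
    split_ifs at ha <;> omega
  · have h5 := D_off x r _ i h4
    have h6 : D x r ≠ 0 := fun e => hr ((D_zero x r).1 e ▸ hx)
    have h7 : ¬ (D x r ≤ 2 ∧ (x i).val ≠ (r i).val) := fun e =>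
      hi (mem_biUnion.2 ⟨x, Multiset.mem_toFinset.2 hx, mem_filter.2 ⟨mem_univ _, e⟩⟩)
    simp only [Function.update_self, d] at h5
    split_ifs at ha <;> omega

theorem not_win (hm : ∀ i, 2 ≤ m i) {C : Multiset (P m)} {r : P m} (h : Win (grid m) C r) :
    2 * C.card ≤ n + 1 → ¬ ∀ x ∈ C, 2 ≤ D x r := by
  have aux : ∀ (C C' : Multiset (P m)) (r : P m),
      Multiset.Rel (fun a b => a = b ∨ (grid m).Adj a b) C C' → (∀ x ∈ C, 2 ≤ D x r) → r ∉ C' := by
    intro C C' r hrel hx hr
    obtain ⟨x, h1, h2⟩ := Multiset.exists_mem_of_rel_of_mem (Multiset.rel_flip.2 hrel) hr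
    have := hx x h1
    have h2' : x = r ∨ (grid m).Adj x r := h2
    rw [← D_zero, adj_iff] at h2'
    omega
  induction h with
  | capture C C' r hrel hr => exact fun _ hx => aux C C' r hrel hx hr
  | step C C' r hrel _ _ ih1 ih2 =>
    intro hc hx
    have hr := aux C C' r hrel hx
    rw [Multiset.card_eq_card_of_rel hrel] at hc
    by_cases h : ∀ x ∈ C', 2 ≤ D x r
    · exact ih1 r (Or.inl rfl) (Multiset.count_eq_zero.2 hr) hc h
    push Not at h
    obtain ⟨A, hA, hA2⟩ := h
    have hA0 : D A r ≠ 0 := fun e => hr ((D_zero A r).1 e ▸ hA)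
    have hce := Multiset.card_erase_add_one hA
    obtain ⟨v, hv, hv2⟩ := esc hm r (C'.erase A) (by omega)
      (fun e => hr (Multiset.mem_of_mem_erase e))
    have hv0 : v ∉ C'.erase A := fun e => by
      have := hv2 v e
      rw [(D_zero v v).2 rfl] at this
      omega
    by_cases e : v = A
    · subst e
      refine ih2 v ((adj_iff _ _).2 hv) ?_ (by omega) hv2
      rw [← Multiset.cons_erase hA, Multiset.count_cons_self, Multiset.count_eq_zero.2 hv0]
    · refine ih1 v (Or.inr ((adj_iff _ _).2 hv)) ?_ hc fun x hx => ?_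
      · rw [← Multiset.cons_erase hA, Multiset.count_cons_of_ne e, Multiset.count_eq_zero.2 hv0]
      · rw [← Multiset.cons_erase hA] at hx
        rcases Multiset.mem_cons.1 hx with rfl | hx
        · obtain ⟨w, a, b, c⟩ := median x r v
          have := (D_zero x v).not.2 (Ne.symm e)
          omega
        · exact hv2 x hx

theorem prod_ge {ι : Type} [DecidableEq ι] (s : Finset ι) (e : ι → ℕ) :
    2 ^ s.card * (2 + ∑ i ∈ s, e i) ≤ 2 * ∏ i ∈ s, (2 + e i) := by
  induction s using Finset.induction_on with
  | empty => simp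
  | insert a s ha ih =>
    rw [card_insert_of_notMem ha, sum_insert ha, prod_insert ha, pow_succ]
    generalize 2 ^ s.card = Q at ih ⊢
    generalize ∑ i ∈ s, e i = E at ih ⊢
    generalize ∏ i ∈ s, (2 + e i) = R at ih ⊢
    generalize e a = x
    calc Q * 2 * (2 + (x + E)) ≤ (2 + x) * (Q * (2 + E)) := by nlinarith [Nat.zero_le (Q * x * E)]
      _ ≤ (2 + x) * (2 * R) := Nat.mul_le_mul_left _ ih
      _ = _ := by ring

theorem undom (hm : ∀ i, 2 ≤ m i) (C : Multiset (P m))
    (hC : 2 * (C.card * (1 + n + ∑ i, (m i - 2))) < 2 ^ n * (2 + ∑ i, (m i - 2))) :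
    ∃ r : P m, ∀ x ∈ C, 2 ≤ D x r := by
  have hN : ∀ x : P m, (univ.filter (fun y : P m => D x y ≤ 1)).card ≤ 1 + n + ∑ i, (m i - 2) := by
    intro x
    have hsub : univ.filter (fun y : P m => D x y ≤ 1) ⊆ insert x (univ.biUnion
        (fun i : Fin n => (univ.erase (x i)).image (Function.update x i))) := by
      intro y hy
      have hy' := (mem_filter.1 hy).2
      by_cases e : D x y = 0
      · rw [(D_zero x y).1 e]; exact mem_insert_self _ _
      · obtain ⟨i, h1, h2⟩ := (adj_iff x y).2 (by omega)
        refine mem_insert_of_mem (mem_biUnion.2 ⟨i, mem_univ _, mem_image.2 ⟨y i,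
          mem_erase.2 ⟨fun e => by rw [e] at h1; omega, mem_univ _⟩, ?_⟩⟩)
        funext j
        by_cases hj : j = i
        · subst hj; simp
        · rw [Function.update_of_ne hj, h2 j hj]
    refine (card_le_card hsub).trans ((card_insert_le _ _).trans ?_)
    have a : (univ.biUnion (fun i : Fin n => (univ.erase (x i)).image (Function.update x i))).card
        ≤ ∑ i : Fin n, (1 + (m i - 2)) := by
      refine card_biUnion_le.trans (sum_le_sum fun i _ => card_image_le.trans ?_)
      rw [card_erase_of_mem (mem_univ _), card_univ, Fintype.card_fin]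
      have := hm i
      omega
    rw [sum_add_distrib, sum_const, card_univ, Fintype.card_fin, smul_eq_mul] at a
    omega
  have h1 : (C.toFinset.biUnion (fun x => univ.filter (fun y : P m => D x y ≤ 1))).card
      ≤ C.card * (1 + n + ∑ i, (m i - 2)) :=
    (card_biUnion_le_card_mul _ _ _ fun x _ => hN x).trans
      (Nat.mul_le_mul_right _ (Multiset.toFinset_card_le C))
  have h2 := prod_ge univ (fun i => m i - 2)
  rw [card_univ, Fintype.card_fin] at h2
  have h3 : Fintype.card (P m) = ∏ i, (2 + (m i - 2)) := by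
    rw [Fintype.card_pi]
    refine prod_congr rfl fun i _ => ?_
    have := hm i
    rw [Fintype.card_fin]
    omega
  obtain ⟨r, -, hr⟩ := exists_mem_notMem_of_card_lt_card
    (s := C.toFinset.biUnion (fun x => univ.filter (fun y : P m => D x y ≤ 1))) (t := univ)
    (by rw [card_univ, h3]; omega)
  refine ⟨r, fun x hx => ?_⟩
  by_contra hc
  exact hr (mem_biUnion.2 ⟨x, Multiset.mem_toFinset.2 hx, mem_filter.2 ⟨mem_univ _, by omega⟩⟩)

theorem lower (hm : ∀ i, 2 ≤ m i) (k : ℕ) (h1 : 2 * k ≤ n + 1)
    (h2 : 2 * (k * (1 + n + ∑ i, (m i - 2))) < 2 ^ n * (2 + ∑ i, (m i - 2))) :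
    ¬ CopsWin (grid m) k := by
  rintro ⟨C, rfl, hC⟩
  obtain ⟨r, hr⟩ := undom hm C h2
  exact not_win hm (hC r) h1 hr

theorem pow_big (n : ℕ) (h : 4 ≤ n) : (n + 1) * (n + 1) < 2 ^ n * 2 := by
  induction n, h using Nat.le_induction with
  | base => norm_num
  | succ n h ih => rw [pow_succ]; nlinarith

theorem main (hm : ∀ i, 2 ≤ m i) (hn : 1 ≤ n) : IsLeast {k | CopsWin (grid m) k}
    (if n = 1 ∧ ∀ i, m i ≤ 3 then 1 else if n = 3 ∧ ∀ i, m i = 2 then 2 else (n + 1) / 2 + 1) := by
  have hpos : 0 < 2 ^ n := by positivity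
  split_ifs with h1 h2
  · obtain ⟨rfl, h1⟩ := h1
    constructor
    · let o : P m := fun i => ⟨1, by have := hm i; omega⟩
      refine ⟨{o}, rfl, fun r => win_adj _ _ o _ (by simp) ?_⟩
      rw [← D_zero, adj_iff]
      have := (r 0).2
      have := h1 0
      simp only [D, Fin.sum_univ_one, d, o]
      omega
    · intro k hk
      by_contra hc
      obtain rfl : k = 0 := by omega
      exact lower hm 0 (by omega) (by omega) hk
  · obtain ⟨rfl, h2⟩ := h2
    constructor
    · let o : P m := fun i => ⟨0, by have := hm i; omega⟩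
      let o' : P m := fun i => ⟨1, by have := hm i; omega⟩
      refine ⟨{o, o'}, rfl, fun r => ?_⟩
      by_cases h : D o r ≤ 1
      · refine win_adj _ _ o _ (by simp) ?_
        rw [← D_zero, adj_iff]
        omega
      · refine win_adj _ _ o' _ (by simp) ?_
        rw [← D_zero, adj_iff]
        have := (r 0).2
        have := (r 1).2
        have := (r 2).2
        have := h2 0
        have := h2 1
        have := h2 2
        simp only [D, Fin.sum_univ_three, d, o, o'] at h ⊢
        omega
    · intro k hk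
      by_contra hc
      refine lower hm k (by omega) ?_ hk
      have : k = 0 ∨ k = 1 := by omega
      rcases this with rfl | rfl <;> omega
  · refine ⟨upper hm hn, fun k hk => ?_⟩
    by_contra hc
    have hk1 : 2 * k ≤ n + 1 := by omega
    by_cases e1 : n = 1
    · subst e1
      obtain ⟨C, rfl, hC⟩ := hk
      have h4 : 4 ≤ m 0 := by
        by_contra h
        exact h1 ⟨rfl, fun i => by rw [Subsingleton.elim i 0]; omega⟩
      let o : P m := fun i => ⟨0, by have := hm i; omega⟩
      let o' : P m := fun i => ⟨m i - 1, by have := hm i; omega⟩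
      have a := not_win hm (hC o) hk1
      have b := not_win hm (hC o') hk1
      push Not at a b
      obtain ⟨x, x1, x2⟩ := a
      obtain ⟨y, y1, y2⟩ := b
      have : x = y := by
        by_contra hne
        have := Multiset.card_erase_add_one x1
        have := Multiset.card_pos_iff_exists_mem.2
          ⟨y, (Multiset.mem_erase_of_ne (Ne.symm hne)).2 y1⟩
        omega
      subst this
      simp only [D, Fin.sum_univ_one, d, o, o'] at x2 y2
      omega
    refine lower hm k hk1 ?_ hk
    by_cases e2 : n = 2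
    · subst e2
      have : k = 0 ∨ k = 1 := by omega
      rcases this with rfl | rfl <;> omega
    by_cases e3 : n = 3
    · subst e3
      have h4 : 0 < ∑ i, (m i - 2) := by
        by_contra h
        refine h2 ⟨rfl, fun i => ?_⟩
        have := (sum_eq_zero_iff.1 (show ∑ i, (m i - 2) = 0 by omega)) i (mem_univ _)
        have := hm i
        omega
      have : k = 0 ∨ k = 1 ∨ k = 2 := by omega
      rcases this with rfl | rfl | rfl <;> omega
    · have a := pow_big n (by omega)
      have b : n + 1 ≤ 2 ^ n := Nat.lt_two_pow_self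
      generalize ∑ i, (m i - 2) = E
      generalize 2 ^ n = Q at a b ⊢
      have c := Nat.mul_le_mul_right (1 + n + E) hk1
      have e := Nat.mul_le_mul_right E b
      nlinarith

end Pool.Agent.H.MP_cd85a3_co
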